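import Pool.Agent.Helper53.Comp.GoalsG

/-!
# Packet G3 of MP_aa7fc1_ag: partial fractions
-/

namespace Mono.Comp

namespace G3

/-- The properties of the partial fractions of one multiset. -/
def Good (m : Multiset ℝ) (c : ℝ × ℕ →₀ ℝ) : Prop :=
  (∀ x ∈ c.support, x.1 ∈ m) ∧
  (∀ z : ℝ, 0 < z → (m.map (fun x => 1 / (z + x))).prod =
    c.sum (fun x c => c / (z + x.1) ^ (x.2 + 1))) ∧
  ∀ f : Multiset ℝ → ℝ, RecS f →
    f m = c.sum (fun x c => c * f (Multiset.replicate (x.2 + 1) x.1))

theorem sum_lin (w : ℝ × ℕ → ℝ) (a : ℝ) (c₁ c₂ : ℝ × ℕ →₀ ℝ) :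
    (a • (c₁ - c₂)).sum (fun x c => c * w x) =
      a * (c₁.sum (fun x c => c * w x) - c₂.sum (fun x c => c * w x)) := by
  have key : ∀ c : ℝ × ℕ →₀ ℝ, c.sum (fun x c => c * w x) = Finsupp.linearCombination ℝ w c :=
    fun c => (Finsupp.linearCombination_apply ℝ c).symm
  rw [key, key, key, map_smul, map_sub, smul_eq_mul]

theorem sum_lin' (w : ℝ × ℕ → ℝ) (a : ℝ) (c₁ c₂ : ℝ × ℕ →₀ ℝ) :
    (a • (c₁ - c₂)).sum (fun x c => c / w x) =
      a * (c₁.sum (fun x c => c / w x) - c₂.sum (fun x c => c / w x)) := by
  simp only [div_eq_mul_inv]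
  exact sum_lin (fun x => (w x)⁻¹) a c₁ c₂

theorem exists_good (N : ℕ) : ∀ m : Multiset ℝ, Multiset.card m = N → m ≠ 0 → PosM m →
    ∃ c, Good m c := by
  induction N using Nat.strong_induction_on with
  | _ N ih =>
    intro m hN hm hpos
    by_cases h : ∃ x ∈ m, ∃ y ∈ m, x ≠ y
    · obtain ⟨x, hx, y, hy, hxy⟩ := h
      obtain ⟨m1, rfl⟩ := Multiset.exists_cons_of_mem hx
      have hy1 : y ∈ m1 := by
        rcases Multiset.mem_cons.1 hy with h1 | h1
        · exact absurd h1.symm hxy
        · exact h1
      obtain ⟨m', rfl⟩ := Multiset.exists_cons_of_mem hy1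
      have hx0 : 0 < x := hpos x (Multiset.mem_cons_self _ _)
      have hy0 : 0 < y := hpos y (Multiset.mem_cons_of_mem (Multiset.mem_cons_self _ _))
      have hm' : PosM m' := fun z hz =>
        hpos z (Multiset.mem_cons_of_mem (Multiset.mem_cons_of_mem hz))
      have hp1 : PosM (x ::ₘ m') := by
        intro z hz
        rcases Multiset.mem_cons.1 hz with rfl | h1
        · exact hx0
        · exact hm' z h1
      have hp2 : PosM (y ::ₘ m') := by
        intro z hz
        rcases Multiset.mem_cons.1 hz with rfl | h1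
        · exact hy0
        · exact hm' z h1
      have hc1 : Multiset.card (x ::ₘ m') < N := by
        rw [← hN, Multiset.card_cons, Multiset.card_cons, Multiset.card_cons]
        omega
      have hc2 : Multiset.card (y ::ₘ m') < N := by
        rw [← hN, Multiset.card_cons, Multiset.card_cons, Multiset.card_cons]
        omega
      obtain ⟨c1, h11, h12, h13⟩ := ih _ hc1 (x ::ₘ m') rfl (Multiset.cons_ne_zero) hp1
      obtain ⟨c2, h21, h22, h23⟩ := ih _ hc2 (y ::ₘ m') rfl (Multiset.cons_ne_zero) hp2
      have hd : y - x ≠ 0 := sub_ne_zero.2 (Ne.symm hxy)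
      refine ⟨(y - x)⁻¹ • (c1 - c2), fun p hp => ?_, fun z hz => ?_, fun f hf => ?_⟩
      · have h1 : p ∈ c1.support ∨ p ∈ c2.support := by
          by_contra hcon
          rw [not_or, Finsupp.notMem_support_iff, Finsupp.notMem_support_iff] at hcon
          rw [Finsupp.mem_support_iff] at hp
          apply hp
          rw [Finsupp.smul_apply, Finsupp.sub_apply, hcon.1, hcon.2, sub_zero, smul_zero]
        rcases h1 with h1 | h1
        · rcases Multiset.mem_cons.1 (h11 p h1) with h2 | h2
          · rw [h2]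
            exact Multiset.mem_cons_self _ _
          · exact Multiset.mem_cons_of_mem (Multiset.mem_cons_of_mem h2)
        · exact Multiset.mem_cons_of_mem (h21 p h1)
      · rw [sum_lin' (fun p => (z + p.1) ^ (p.2 + 1)), ← h12 z hz, ← h22 z hz]
        rw [Multiset.map_cons, Multiset.prod_cons, Multiset.map_cons, Multiset.prod_cons,
          Multiset.map_cons, Multiset.prod_cons]
        have hzx : z + x ≠ 0 := (add_pos hz hx0).ne'
        have hzy : z + y ≠ 0 := (add_pos hz hy0).ne'
        field_simp
        ring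
      · rw [sum_lin (fun p => f (Multiset.replicate (p.2 + 1) p.1)), ← h13 f hf, ← h23 f hf]
        have h1 := hf m' x y hm' hx0 hy0 hxy
        rw [← h1, ← mul_assoc, inv_mul_cancel₀ hd, one_mul]
    · push Not at h
      obtain ⟨r, hr⟩ := Multiset.exists_mem_of_ne_zero hm
      have h1 : m = Multiset.replicate (Multiset.card m) r :=
        Multiset.eq_replicate_card.2 fun b hb => h b hb r hr
      have h2 : Multiset.card m ≠ 0 := by
        rwa [Ne, Multiset.card_eq_zero]
      obtain ⟨p, hp⟩ := Nat.exists_eq_succ_of_ne_zero h2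
      rw [hp] at h1
      refine ⟨Finsupp.single (r, p) 1, fun x hx => ?_, fun z hz => ?_, fun f _ => ?_⟩
      · have h3 : x = (r, p) := by
          have := Finsupp.support_single_subset hx
          exact Finset.mem_singleton.1 this
        rw [h3]
        exact hr
      · rw [Finsupp.sum_single_index (by rw [zero_div]), h1, Multiset.map_replicate,
          Multiset.prod_replicate, one_div, inv_pow, one_div]
      · rw [Finsupp.sum_single_index (by rw [zero_mul]), one_mul]
        exact congrArg f h1

end G3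

theorem redExists : RedExists := by
  classical
  refine ⟨fun m => if h : m ≠ 0 ∧ PosM m then
    (G3.exists_good (Multiset.card m) m rfl h.1 h.2).choose else 0, fun m hm hp => ?_⟩
  have h : m ≠ 0 ∧ PosM m := ⟨hm, hp⟩
  beta_reduce
  rw [dif_pos h]
  exact (G3.exists_good (Multiset.card m) m rfl h.1 h.2).choose_spec

end Mono.Comp
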